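import Pool.Agent.T6.H63.GS.Stein

/-!
Project GS (helper63), MP_4fa179_mp: a random variable with a Stein kernel is Gaussian if and only
if the conditional kernel is constant.
-/

set_option autoImplicit false
open MeasureTheory ProbabilityTheory Filter Topology

namespace Pool.Agent.T6.H63.GS

noncomputable section

variable {S : Type*} [MeasurableSpace S]

lemma cfe {Q : Measure S} {X : S → ℝ} (mX : Measurable X) (t : ℝ) :
    charFun (Q.map X) t = ∫ s, e t (X s) ∂Q := by
  rw [charFun_apply_real, integral_map mX.aemeasurable (by fun_prop)]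
  refine integral_congr_ae (ae_of_all _ fun s => ?_)
  show Complex.exp (t * X s * Complex.I) = e t (X s)
  rw [e]; push_cast; rfl

/-- uniqueness -/
lemma uniq {P : Measure S} {X W1 W2 : S → ℝ} (m1 : Measurable W1) (m2 : Measurable W2)
    (i1 : Integrable W1 P) (i2 : Integrable W2 P) (p1 : ∀ s, 0 ≤ W1 s) (p2 : ∀ s, 0 ≤ W2 s)
    (mX : Measurable X)
    (h : ∀ t, ∫ s, (W1 s : ℂ) * e t (X s) ∂P = ∫ s, (W2 s : ℂ) * e t (X s) ∂P) {A : Set ℝ}
    (mA : MeasurableSet A) : ∫ s in X ⁻¹' A, W1 s ∂P = ∫ s in X ⁻¹' A, W2 s ∂P := by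
  have fin : ∀ {W : S → ℝ}, Integrable W P →
      IsFiniteMeasure ((P.withDensity fun s => ENNReal.ofReal (W s)).map X) := by
    intro W hW
    have := isFiniteMeasure_withDensity_ofReal hW.2
    infer_instance
  have cf : ∀ {W : S → ℝ}, Measurable W → (∀ s, 0 ≤ W s) → ∀ t,
      charFun ((P.withDensity fun s => ENNReal.ofReal (W s)).map X) t =
        ∫ s, (W s : ℂ) * e t (X s) ∂P := by
    intro W mW pW t
    rw [cfe mX, integral_withDensity_eq_integral_toReal_smul mW.ennreal_ofReal
      (ae_of_all _ fun s => ENNReal.ofReal_lt_top)]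
    refine integral_congr_ae (ae_of_all _ fun s => ?_)
    show (ENNReal.ofReal (W s)).toReal • e t (X s) = (W s : ℂ) * e t (X s)
    rw [ENNReal.toReal_ofReal (pW s), Complex.real_smul]
  have ap : ∀ {W : S → ℝ}, Measurable W → (∀ s, 0 ≤ W s) → ∫ s in X ⁻¹' A, W s ∂P =
      (((P.withDensity fun s => ENNReal.ofReal (W s)).map X) A).toReal := by
    intro W mW pW
    rw [Measure.map_apply mX mA, withDensity_apply _ (mX mA),
      integral_eq_lintegral_of_nonneg_ae (ae_of_all _ pW) mW.aestronglyMeasurable]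
  have := fin i1
  have := fin i2
  have key : (P.withDensity fun s => ENNReal.ofReal (W1 s)).map X =
      (P.withDensity fun s => ENNReal.ofReal (W2 s)).map X := by
    apply Measure.ext_of_charFun
    funext t
    rw [cf m1 p1, cf m2 p2, h]
  rw [ap m1 p1, ap m2 p2, key]

variable {P : Measure S} [IsProbabilityMeasure P] {X Γ : S → ℝ}

lemma Stein.vnn (h : Stein P X Γ) : 0 ≤ ∫ s, X s ^ 2 ∂P :=
  have := h.mX
  integral_nonneg fun s => sq_nonneg _

/-- the law of `X` from its characteristic function -/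
lemma law_of {v : ℝ} (hv : 0 ≤ v) (mX : Measurable X)
    (h : ∀ t, 0 ≤ t → ∫ s, e t (X s) ∂P = Real.exp (-(v * t ^ 2) / 2)) :
    P.map X = gaussianReal 0 v.toNNReal := by
  have : IsProbabilityMeasure (P.map X) := Measure.isProbabilityMeasure_map mX.aemeasurable
  apply Measure.ext_of_charFun
  funext t
  rw [charFun_gaussianReal]
  have g : ∀ t : ℝ, 0 ≤ t → charFun (P.map X) t = (Real.exp (-(v * t ^ 2) / 2) : ℂ) :=
    fun t ht => by rw [cfe mX, h t ht]
  have e1 : Complex.exp (t * ((0 : ℝ) : ℂ) * Complex.I - ((v.toNNReal : ℝ) : ℂ) * t ^ 2 / 2) =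
      (Real.exp (-(v * t ^ 2) / 2) : ℂ) := by
    rw [Real.coe_toNNReal _ hv, Complex.ofReal_exp]
    congr 1
    push_cast; ring
  rw [e1]
  rcases le_total 0 t with ht | ht
  · exact g t ht
  · have g1 := g (-t) (by linarith)
    rw [charFun_neg] at g1
    have g2 := congrArg (starRingEnd ℂ) g1
    rw [Complex.conj_conj, Complex.conj_ofReal, neg_sq] at g2
    exact g2

lemma cf_of {v : ℝ} (hv : 0 ≤ v) (mX : Measurable X)
    (h : P.map X = gaussianReal 0 v.toNNReal) (t : ℝ) :
    ∫ s, e t (X s) ∂P = Real.exp (-(v * t ^ 2) / 2) := by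
  rw [← cfe mX, h, charFun_gaussianReal, Real.coe_toNNReal _ hv, Complex.ofReal_exp]
  congr 1
  push_cast; ring

lemma Stein.zero (h : Stein P X Γ) (h0 : ∫ s, X s ^ 2 ∂P = 0) :
    (∀ᵐ s ∂P, X s = 0) ∧ ∀ᵐ s ∂P, Γ s = 0 := by
  constructor
  · have := (integral_eq_zero_iff_of_nonneg (fun s => sq_nonneg (X s)) h.X2).1 h0
    filter_upwards [this] with s hs
    exact pow_eq_zero_iff (two_ne_zero) |>.1 hs
  · have := (integral_eq_zero_iff_of_nonneg h.Γ0 h.iΓ).1 (h.en.trans h0)
    filter_upwards [this] with s hs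
    exact hs

/-- **the criterion** -/
theorem Stein.gauss_iff (h : Stein P X Γ) :
    P.map X = gaussianReal 0 (∫ s, X s ^ 2 ∂P).toNNReal ↔
      P[Γ | sX X] =ᵐ[P] fun _ => ∫ s, X s ^ 2 ∂P := by
  obtain ⟨v, hv⟩ : ∃ v, v = ∫ s, X s ^ 2 ∂P := ⟨_, rfl⟩
  have v0 : 0 ≤ v := hv ▸ h.vnn
  rw [← hv]
  rcases v0.eq_or_lt with z | vp
  · -- the degenerate case
    obtain ⟨z1, z2⟩ := h.zero (hv.symm.trans z.symm)
    constructor
    · intro _
      have c1 : P[Γ | sX X] =ᵐ[P] P[(fun _ => (0 : ℝ)) | sX X] := condExp_congr_ae z2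
      rw [condExp_const (sX_le h.mX)] at c1
      rw [← z]; exact c1
    · intro _
      refine law_of v0 h.mX fun t _ => ?_
      rw [← z]
      have : ∫ s, e t (X s) ∂P = ∫ s, (1 : ℂ) ∂P := by
        refine integral_congr_ae ?_
        filter_upwards [z1] with s hs
        rw [hs, e]; simp
      rw [this]; simp
  constructor
  · intro hl
    have cf := cf_of v0 h.mX hl
    -- the identity for the exponentials
    have key : ∀ t, ∫ s, (Γ s : ℂ) * e t (X s) ∂P = ∫ s, ((v : ℝ) : ℂ) * e t (X s) ∂P := by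
      intro t
      rw [integral_const_mul, cf]
      by_cases ht : t = 0
      · subst ht
        have : ∀ s, e 0 (X s) = 1 := fun s => by rw [e]; simp
        simp only [this, mul_one]
        rw [integral_complex_ofReal, h.en, ← hv]
        simp
      · have d1 := h.deriv t
        have d2 : HasDerivAt (fun t : ℝ => ∫ s, e t (X s) ∂P)
            (((-(v * t) * Real.exp (-(v * t ^ 2) / 2) : ℝ)) : ℂ) t := by
          have h1 : HasDerivAt (fun t : ℝ => -(v * t ^ 2) / 2) (-(v * t)) t := by
            have := (((hasDerivAt_id t).pow 2).const_mul v).neg.div_const 2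
            refine this.congr_deriv ?_
            simp; ring
          have h2 := h1.exp.ofReal_comp
          have h3 : (fun t : ℝ => ∫ s, e t (X s) ∂P) =
              fun t : ℝ => ((Real.exp (-(v * t ^ 2) / 2) : ℝ) : ℂ) := funext cf
          rw [h3]
          refine h2.congr_deriv ?_
          push_cast; ring
        have u := d1.unique d2
        have ht' : (t : ℂ) ≠ 0 := by exact_mod_cast ht
        refine mul_left_cancel₀ ht' ?_
        push_cast at u ⊢
        linear_combination (-1 : ℂ) * u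
    have q := fun {A : Set ℝ} (mA : MeasurableSet A) => uniq (P := P) h.mΓ measurable_const h.iΓ
      (integrable_const v) h.Γ0 (fun _ => v0) h.mX key mA
    refine (ae_eq_condExp_of_forall_setIntegral_eq (sX_le h.mX) h.iΓ
      (fun s _ _ => (integrable_const v).integrableOn) ?_
      stronglyMeasurable_const.aestronglyMeasurable).symm
    rintro s ⟨A, mA, rfl⟩ _
    exact (q mA).symm
  · intro hc
    refine law_of v0 h.mX fun t ht => ?_
    have d0 : dev P X Γ v = 0 := by
      unfold dev
      have : (fun s => |(P[Γ | sX X]) s - v|) =ᵐ[P] fun _ => 0 := by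
        filter_upwards [hc] with s hs
        rw [hs, sub_self, abs_zero]
      rw [integral_congr_ae this, integral_zero]
    have m := h.main vp ht
    rw [d0, mul_zero] at m
    have := norm_le_zero_iff.1 m
    exact sub_eq_zero.1 this

/-- independence of the kernel -/
lemma Stein.indep (h : Stein P X Γ) (hi : IndepFun Γ X P) :
    P[Γ | sX X] =ᵐ[P] fun _ => ∫ s, X s ^ 2 ∂P := by
  have h1 : P[Γ | sX X] =ᵐ[P] fun _ => P[Γ] :=
    condExp_indep_eq (m₁ := sX Γ) (m₂ := sX X) (sX_le h.mΓ) (sX_le h.mX)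
      (comap_measurable Γ).stronglyMeasurable ((IndepFun_iff_Indep _ _ _).1 hi)
  rw [h.en] at h1
  exact h1

end

end Pool.Agent.T6.H63.GS
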