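import Pool.Agent.T6.H63.GS.Wave

/-!
Project GS (helper63), MP_4fa179_mp: the Gaussianity criterion.
-/

set_option autoImplicit false
open MeasureTheory ProbabilityTheory Filter Topology
open scoped ContDiff

namespace Pool.Agent.T6.H63.GS

noncomputable section

section

variable {S : Type*} [MeasurableSpace S] {P : Measure S} [IsProbabilityMeasure P] {X Γ : S → ℝ}

lemma Stein.mean (h : Stein P X Γ) : ∫ s, X s ∂P = 0 := by
  have := h.cos 0
  simpa using this

theorem Stein.main' (h : Stein P X Γ) {v : ℝ} (hv : 0 < v) (t : ℝ) :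
    ‖charFun (P.map X) t - Real.exp (-(v * t ^ 2) / 2)‖ ≤
      (1 - Real.exp (-(v * t ^ 2) / 2)) / v * dev P X Γ v := by
  rcases le_total 0 t with ht | ht
  · rw [cfe h.mX]
    exact h.main hv ht
  · have m := h.main hv (t := -t) (by linarith)
    rw [← cfe h.mX, charFun_neg, neg_sq, ← Complex.conj_ofReal, ← map_sub, RCLike.norm_conj] at m
    exact m

variable {T : Type*} {F : T → S → ℝ}

/-- a process is a centred Gaussian process if and only if its linear observables are Gaussian -/
lemma process_iff (mF : ∀ y, Measurable (F y)) (F2 : ∀ I : Finset T, ∀ a : T → ℝ,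
      Integrable (fun s => (∑ y ∈ I, a y * F y s) ^ 2) P)
    (m0 : ∀ I : Finset T, ∀ a : T → ℝ, ∫ s, ∑ y ∈ I, a y * F y s ∂P = 0) :
    IsGaussianProcess F P ↔ ∀ (I : Finset T) (a : T → ℝ),
      P.map (fun s => ∑ y ∈ I, a y * F y s) =
        gaussianReal 0 (∫ s, (∑ y ∈ I, a y * F y s) ^ 2 ∂P).toNNReal := by
  classical
  have mX : ∀ (I : Finset T) (a : T → ℝ), Measurable fun s => ∑ y ∈ I, a y * F y s := fun I a =>
    Finset.measurable_fun_sum _ fun y _ => measurable_const.mul (mF y)
  have va : ∀ (I : Finset T) (a : T → ℝ), Var[fun s => ∑ y ∈ I, a y * F y s; P] =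
      ∫ s, (∑ y ∈ I, a y * F y s) ^ 2 ∂P := by
    intro I a
    rw [variance_of_integral_eq_zero (mX I a).aemeasurable (m0 I a)]
  constructor
  · intro hG I a
    have h1 : IsGaussianProcess (fun (_ : Unit) s => ∑ y ∈ I, a y * F y s) P :=
      hG.of_isGaussianProcess fun _ => ⟨I,
        { toFun := fun f => ∑ y : I, a y * f y
          map_add' := fun f g => by
            rw [← Finset.sum_add_distrib]
            exact Finset.sum_congr rfl fun y _ => by rw [Pi.add_apply]; ring
          map_smul' := fun c f => by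
            rw [RingHom.id_apply, smul_eq_mul, Finset.mul_sum]
            exact Finset.sum_congr rfl fun y _ => by rw [Pi.smul_apply, smul_eq_mul]; ring
          cont := by fun_prop }, fun s => by
        show ∑ y ∈ I, a y * F y s = ∑ y : I, a y * F y s
        exact (Finset.sum_coe_sort I fun y => a y * F y s).symm⟩
    have h2 := (h1.hasGaussianLaw_eval ()).isGaussian_map
    have h3 := h2.map_eq_gaussianReal (ContinuousLinearMap.id ℝ ℝ)
    have e1 : (P.map fun s => ∑ y ∈ I, a y * F y s).map (ContinuousLinearMap.id ℝ ℝ) =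
        P.map fun s => ∑ y ∈ I, a y * F y s := by
      exact Measure.map_id
    have e2 : (P.map fun s => ∑ y ∈ I, a y * F y s)[ContinuousLinearMap.id ℝ ℝ] = 0 := by
      have : ∫ x, x ∂(P.map fun s => ∑ y ∈ I, a y * F y s) =
          ∫ s, ∑ y ∈ I, a y * F y s ∂P :=
        integral_map (f := fun x => x) (mX I a).aemeasurable
          continuous_id.aestronglyMeasurable
      rw [m0] at this
      exact this
    have e3 : Var[ContinuousLinearMap.id ℝ ℝ; P.map fun s => ∑ y ∈ I, a y * F y s] =
        ∫ s, (∑ y ∈ I, a y * F y s) ^ 2 ∂P := by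
      rw [variance_map (ContinuousLinearMap.id ℝ ℝ).continuous.aemeasurable
        (mX I a).aemeasurable]
      exact va I a
    rw [e1, e2, e3] at h3
    exact h3
  · intro h
    refine ⟨fun I => ⟨⟨fun L => ?_⟩⟩⟩
    obtain ⟨a, ha⟩ : ∃ a : T → ℝ, a = fun y => if hy : y ∈ I then
      L (Pi.single (⟨y, hy⟩ : I) 1) else 0 := ⟨_, rfl⟩
    have mR : Measurable fun s => I.restrict (F · s) :=
      measurable_pi_iff.2 fun y => mF y
    have eL : ∀ s, L (I.restrict (F · s)) = ∑ y ∈ I, a y * F y s := by
      intro s
      have e1 : (I.restrict (F · s) : I → ℝ) =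
          ∑ y : I, F y s • (Pi.single y 1 : I → ℝ) := by
        funext z
        rw [Finset.sum_apply]
        simp [Pi.single_apply]
      rw [e1, map_sum, ← Finset.sum_coe_sort I fun y => a y * F y s]
      refine Finset.sum_congr rfl fun y _ => ?_
      rw [map_smul, smul_eq_mul, ha]
      simp only [y.2, dite_true]
      ring
    have eL' : (L ∘ fun s => I.restrict (F · s)) = fun s => ∑ y ∈ I, a y * F y s :=
      funext eL
    rw [Measure.map_map L.continuous.measurable mR, eL', h I a]
    have e2 : (P.map fun s => I.restrict (F · s))[L] = 0 := by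
      rw [integral_map mR.aemeasurable L.continuous.aestronglyMeasurable]
      simp only [eL]
      exact m0 I a
    have e3 : Var[L; P.map fun s => I.restrict (F · s)] =
        ∫ s, (∑ y ∈ I, a y * F y s) ^ 2 ∂P := by
      rw [variance_map L.continuous.aemeasurable mR.aemeasurable, eL']
      exact va I a
    rw [e2, e3]

end

end

end Pool.Agent.T6.H63.GS
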