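import Mathlib

/-!
Project GS (helper63), MP_4fa179_mp: random variables `X` with a Stein kernel `Γ`.
-/

set_option autoImplicit false
open MeasureTheory ProbabilityTheory Filter Topology

namespace Pool.Agent.T6.H63.GS

noncomputable section

variable {S : Type*} [MeasurableSpace S]

/-- `Γ` is a Stein kernel of `X`, in the form of the identity for exponentials -/
structure Stein (P : Measure S) (X Γ : S → ℝ) : Prop where
  mX : Measurable X
  mΓ : Measurable Γ
  X2 : Integrable (fun s => X s ^ 2) P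
  iΓ : Integrable Γ P
  Γ0 : ∀ s, 0 ≤ Γ s
  en : ∫ s, Γ s ∂P = ∫ s, X s ^ 2 ∂P
  sin : ∀ t : ℝ, ∫ s, X s * Real.sin (t * X s) ∂P = t * ∫ s, Γ s * Real.cos (t * X s) ∂P
  cos : ∀ t : ℝ, ∫ s, X s * Real.cos (t * X s) ∂P = -t * ∫ s, Γ s * Real.sin (t * X s) ∂P

variable {P : Measure S} [IsProbabilityMeasure P] {X Γ : S → ℝ}

lemma Stein.iX (h : Stein P X Γ) : Integrable X P := by
  refine Integrable.mono' ((integrable_const (1 : ℝ)).add h.X2) h.mX.aestronglyMeasurable
    (ae_of_all _ fun s => ?_)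
  show ‖X s‖ ≤ 1 + X s ^ 2
  rw [Real.norm_eq_abs, ← sq_abs (X s)]
  nlinarith [sq_nonneg (|X s| - 1), abs_nonneg (X s)]

/-- bounded measurable factors -/
lemma ibd {g : S → ℝ} {f : S → ℝ} (mf : Integrable f P) (mg : Measurable g) {C : ℝ}
    (hg : ∀ s, |g s| ≤ C) : Integrable (fun s => f s * g s) P := by
  have := mf.bdd_mul (c := C) mg.aestronglyMeasurable (ae_of_all _ fun s => by
    rw [Real.norm_eq_abs]; exact hg s)
  refine this.congr (ae_of_all _ fun s => ?_)
  show g s * f s = f s * g s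
  ring

/-- the phase -/
def e (t x : ℝ) : ℂ := Complex.exp ((t * x : ℝ) * Complex.I)

lemma e_eq (t x : ℝ) : e t x = (Real.cos (t * x) : ℂ) + (Real.sin (t * x) : ℂ) * Complex.I := by
  rw [e, Complex.exp_mul_I, Complex.ofReal_cos, Complex.ofReal_sin]

lemma norm_e (t x : ℝ) : ‖e t x‖ = 1 := by
  rw [e, Complex.norm_exp_ofReal_mul_I]

lemma me (t : ℝ) (mX : Measurable X) : Measurable fun s => e t (X s) := by
  unfold e
  fun_prop

lemma ie {f : S → ℝ} (mf : Integrable f P) (mX : Measurable X) (t : ℝ) :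
    Integrable (fun s => (f s : ℂ) * e t (X s)) P := by
  have h := mf.ofReal (𝕜 := ℂ)
  have := h.bdd_mul (c := 1) (me t mX).aestronglyMeasurable (ae_of_all _ fun s => by
    rw [norm_e])
  refine this.congr (ae_of_all _ fun s => ?_)
  show e t (X s) * (f s : ℂ) = (f s : ℂ) * e t (X s)
  ring

lemma int_e {f : S → ℝ} (mf : Integrable f P) (mX : Measurable X) (t : ℝ) :
    ∫ s, (f s : ℂ) * e t (X s) ∂P = ((∫ s, f s * Real.cos (t * X s) ∂P : ℝ) : ℂ) +
      ((∫ s, f s * Real.sin (t * X s) ∂P : ℝ) : ℂ) * Complex.I := by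
  have ic : Integrable (fun s => f s * Real.cos (t * X s)) P :=
    ibd mf (by fun_prop) (C := 1) fun s => Real.abs_cos_le_one _
  have is : Integrable (fun s => f s * Real.sin (t * X s)) P :=
    ibd mf (by fun_prop) (C := 1) fun s => Real.abs_sin_le_one _
  have e1 : ∀ s, (f s : ℂ) * e t (X s) = ((f s * Real.cos (t * X s) : ℝ) : ℂ) +
      ((f s * Real.sin (t * X s) : ℝ) : ℂ) * Complex.I := by
    intro s
    rw [e_eq]; push_cast; ring
  simp only [e1]
  rw [integral_add ic.ofReal (is.ofReal.mul_const _), integral_mul_const]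
  rw [integral_complex_ofReal, integral_complex_ofReal]

/-- the complex form of the identity -/
lemma Stein.cx (h : Stein P X Γ) (t : ℝ) :
    ∫ s, (X s : ℂ) * e t (X s) ∂P = (t : ℂ) * Complex.I * ∫ s, (Γ s : ℂ) * e t (X s) ∂P := by
  rw [int_e h.iX h.mX, int_e h.iΓ h.mX, h.sin, h.cos]
  push_cast
  linear_combination (-(t : ℂ) * (∫ s, Γ s * Real.sin (t * X s) ∂P : ℝ)) * Complex.I_sq

lemma charFun_eq (mX : Measurable X) (t : ℝ) : charFun (P.map X) t = ∫ s, e t (X s) ∂P := by
  rw [charFun_apply_real, integral_map mX.aemeasurable (by fun_prop)]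
  refine integral_congr_ae (ae_of_all _ fun s => ?_)
  show Complex.exp (t * X s * Complex.I) = e t (X s)
  rw [e]; push_cast; rfl

/-- the derivative of the characteristic function -/
lemma Stein.deriv (h : Stein P X Γ) (t : ℝ) :
    HasDerivAt (fun t => ∫ s, e t (X s) ∂P) (-(t : ℂ) * ∫ s, (Γ s : ℂ) * e t (X s) ∂P) t := by
  have hd := hasDerivAt_integral_of_dominated_loc_of_deriv_le (μ := P) (𝕜 := ℝ)
    (F := fun t s => e t (X s)) (F' := fun t s => (X s : ℂ) * Complex.I * e t (X s))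
    (x₀ := t) (s := Set.univ) (bound := fun s => |X s|) univ_mem
    (Eventually.of_forall fun t => (me t h.mX).aestronglyMeasurable)
    ?_ ?_ ?_ h.iX.abs ?_
  · have h2 := hd.2
    have e1 : ∫ s, (X s : ℂ) * Complex.I * e t (X s) ∂P =
        -(t : ℂ) * ∫ s, (Γ s : ℂ) * e t (X s) ∂P := by
      have : ∀ s, (X s : ℂ) * Complex.I * e t (X s) = Complex.I * ((X s : ℂ) * e t (X s)) := by
        intro s; ring
      simp only [this]
      rw [integral_const_mul, h.cx]
      linear_combination ((t : ℂ) * ∫ s, (Γ s : ℂ) * e t (X s) ∂P) * Complex.I_sq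
    rw [e1] at h2
    exact h2
  · have := ie (integrable_const (1 : ℝ)) (P := P) h.mX t
    simpa using this
  · have : Measurable fun s => (X s : ℂ) * Complex.I * e t (X s) := by
      have := me t h.mX
      have := h.mX
      fun_prop
    exact this.aestronglyMeasurable
  · refine ae_of_all _ fun s t _ => ?_
    rw [norm_mul, norm_mul, norm_e, Complex.norm_I, mul_one, mul_one, Complex.norm_real,
      Real.norm_eq_abs]
  · refine ae_of_all _ fun s t _ => ?_
    have h1 : HasDerivAt (fun t : ℝ => ((t * X s : ℝ) : ℂ) * Complex.I)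
        ((X s : ℂ) * Complex.I) t := by
      have := ((hasDerivAt_id t).mul_const (X s)).ofReal_comp.mul_const Complex.I
      simpa using this
    have h2 := h1.cexp
    refine h2.congr_deriv ?_
    show _ = (X s : ℂ) * Complex.I * e t (X s)
    rw [e]; ring

/-- the σ-algebra of `X` -/
abbrev sX (X : S → ℝ) : MeasurableSpace S := MeasurableSpace.comap X inferInstance

lemma sX_le (mX : Measurable X) : sX X ≤ (inferInstance : MeasurableSpace S) :=
  mX.comap_le

lemma pull (h : Stein P X Γ) {g : ℝ → ℝ} (mg : Measurable g) {C : ℝ} (hg : ∀ x, |g x| ≤ C) :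
    ∫ s, Γ s * g (X s) ∂P = ∫ s, (P[Γ | sX X]) s * g (X s) ∂P := by
  have hm := sX_le h.mX
  have ig : Integrable (Γ * fun s => g (X s)) P :=
    ibd h.iΓ (mg.comp h.mX) fun s => hg _
  have sg : StronglyMeasurable[sX X] fun s => g (X s) := by
    have : Measurable[sX X] fun s => g (X s) := by
      have hx : Measurable[sX X] X := comap_measurable X
      exact mg.comp hx
    exact this.stronglyMeasurable
  have h1 := condExp_mul_of_stronglyMeasurable_right sg ig h.iΓ
  have h2 := integral_condExp (μ := P) (f := Γ * fun s => g (X s)) hm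
  calc ∫ s, Γ s * g (X s) ∂P = ∫ s, (Γ * fun s => g (X s)) s ∂P := rfl
    _ = ∫ s, (P[Γ * fun s => g (X s) | sX X]) s ∂P := h2.symm
    _ = ∫ s, (P[Γ | sX X] * fun s => g (X s)) s ∂P := integral_congr_ae h1

/-- the mean deviation of the conditional kernel -/
def dev (P : Measure S) (X Γ : S → ℝ) (v : ℝ) : ℝ := ∫ s, |(P[Γ | sX X]) s - v| ∂P

lemma dev_nonneg (v : ℝ) : 0 ≤ dev P X Γ v := integral_nonneg fun s => abs_nonneg _

lemma Stein.bd (h : Stein P X Γ) (v t : ℝ) :
    ‖(∫ s, (Γ s : ℂ) * e t (X s) ∂P) - v * ∫ s, e t (X s) ∂P‖ ≤ dev P X Γ v := by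
  have iC : Integrable (P[Γ | sX X]) P := integrable_condExp
  have e1 : ∫ s, (Γ s : ℂ) * e t (X s) ∂P = ∫ s, ((P[Γ | sX X]) s : ℂ) * e t (X s) ∂P := by
    rw [int_e h.iΓ h.mX, int_e iC h.mX,
      pull h (g := fun x => Real.cos (t * x)) (by fun_prop) (C := 1)
        fun x => Real.abs_cos_le_one _,
      pull h (g := fun x => Real.sin (t * x)) (by fun_prop) (C := 1)
        fun x => Real.abs_sin_le_one _]
  have i1 := ie iC h.mX t
  have i2 : Integrable (fun s => e t (X s)) P := by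
    have := ie (integrable_const (1 : ℝ)) (P := P) h.mX t
    simpa using this
  rw [e1, ← integral_const_mul, ← integral_sub i1 (i2.const_mul _)]
  refine (norm_integral_le_integral_norm _).trans (le_of_eq ?_)
  unfold dev
  congr 1
  funext s
  rw [← sub_mul, norm_mul, norm_e, mul_one, ← Complex.ofReal_sub, Complex.norm_real,
    Real.norm_eq_abs]

/-- the quantitative bound -/
theorem Stein.main (h : Stein P X Γ) {v : ℝ} (hv : 0 < v) {t : ℝ} (ht : 0 ≤ t) :
    ‖(∫ s, e t (X s) ∂P) - Real.exp (-(v * t ^ 2) / 2)‖ ≤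
      (1 - Real.exp (-(v * t ^ 2) / 2)) / v * dev P X Γ v := by
  obtain ⟨δ, hδ⟩ : ∃ δ, δ = dev P X Γ v := ⟨_, rfl⟩
  obtain ⟨ψ, hψ⟩ : ∃ ψ : ℝ → ℂ, ψ = fun t => (Real.exp (v * t ^ 2 / 2) : ℂ) *
    (∫ s, e t (X s) ∂P) - 1 := ⟨_, rfl⟩
  have dex : ∀ x : ℝ, HasDerivAt (fun t : ℝ => Real.exp (v * t ^ 2 / 2))
      (v * x * Real.exp (v * x ^ 2 / 2)) x := by
    intro x
    have h1 : HasDerivAt (fun t : ℝ => v * t ^ 2 / 2) (v * x) x := by
      have := (((hasDerivAt_id x).pow 2).const_mul v).div_const 2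
      refine this.congr_deriv ?_
      simp; ring
    refine h1.exp.congr_deriv ?_
    ring
  have dψ : ∀ x : ℝ, HasDerivAt ψ (-(x : ℂ) * (Real.exp (v * x ^ 2 / 2) : ℂ) *
      ((∫ s, (Γ s : ℂ) * e x (X s) ∂P) - v * ∫ s, e x (X s) ∂P)) x := by
    intro x
    rw [hψ]
    have := ((dex x).ofReal_comp.mul (h.deriv x)).sub_const 1
    refine this.congr_deriv ?_
    push_cast; ring
  have key := image_norm_le_of_norm_deriv_right_le_deriv_boundary (a := 0) (b := t) (f := ψ)
    (f' := fun x => -(x : ℂ) * (Real.exp (v * x ^ 2 / 2) : ℂ) *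
      ((∫ s, (Γ s : ℂ) * e x (X s) ∂P) - v * ∫ s, e x (X s) ∂P))
    (B := fun x => δ / v * (Real.exp (v * x ^ 2 / 2) - 1))
    (B' := fun x => δ / v * (v * x * Real.exp (v * x ^ 2 / 2)))
    (fun x _ => (dψ x).continuousAt.continuousWithinAt)
    (fun x _ => (dψ x).hasDerivWithinAt) ?_ (fun x => ((dex x).sub_const 1).const_mul _) ?_
    (Set.right_mem_Icc.2 ht)
  · have ep : 0 < Real.exp (v * t ^ 2 / 2) := Real.exp_pos _
    have em : Real.exp (-(v * t ^ 2) / 2) * Real.exp (v * t ^ 2 / 2) = 1 := by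
      rw [← Real.exp_add]; ring_nf; exact Real.exp_zero
    have e2 : (∫ s, e t (X s) ∂P) - Real.exp (-(v * t ^ 2) / 2) =
        (Real.exp (-(v * t ^ 2) / 2) : ℂ) * ψ t := by
      rw [hψ]
      have em' : (Real.exp (-(v * t ^ 2) / 2) : ℂ) * (Real.exp (v * t ^ 2 / 2) : ℂ) = 1 := by
        exact_mod_cast em
      linear_combination (-(∫ s, e t (X s) ∂P)) * em'
    rw [e2, norm_mul, Complex.norm_real, Real.norm_eq_abs, abs_of_pos (Real.exp_pos _), ← hδ]
    calc Real.exp (-(v * t ^ 2) / 2) * ‖ψ t‖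
        ≤ Real.exp (-(v * t ^ 2) / 2) * (δ / v * (Real.exp (v * t ^ 2 / 2) - 1)) :=
          mul_le_mul_of_nonneg_left key (Real.exp_pos _).le
      _ = (1 - Real.exp (-(v * t ^ 2) / 2)) / v * δ := by
          linear_combination (δ / v) * em
  · rw [hψ]
    simp [e]
  · intro x hx
    rw [norm_mul, norm_mul, norm_neg, Complex.norm_real, Complex.norm_real, Real.norm_eq_abs,
      Real.norm_eq_abs, abs_of_nonneg hx.1, abs_of_pos (Real.exp_pos _)]
    have b := h.bd v x
    rw [← hδ] at b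
    have hx0 := hx.1
    have e3 : δ / v * (v * x * Real.exp (v * x ^ 2 / 2)) = x * Real.exp (v * x ^ 2 / 2) * δ := by
      field_simp
    rw [e3]
    exact mul_le_mul_of_nonneg_left b (by positivity)

end

end Pool.Agent.T6.H63.GS
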