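import Pool.Agent.T6.H63.GS.Gauss
import Pool.Agent.Y139.SW.J

/-!
Project GS (helper63), MP_4fa179_mp: linear observables of a stationary wave have a Stein kernel.
-/

set_option autoImplicit false
open MeasureTheory ProbabilityTheory Filter Topology
open scoped ContDiff

namespace Pool.Agent.T6.H63.GS

open Pool.Agent.Y139.SW

noncomputable section

variable {d : ℕ} {S : Type*} [MeasurableSpace S] {P : Measure S} {τ : E d → S → S}

/-- the Stein identity for waves -/
theorem stein_k [IsProbabilityMeasure P] (hτ : ∀ x, MeasurePreserving (τ x) P P)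
    {G : S → E d → ℝ} (W : Wave P τ G) {k : ℝ → ℝ} (hk : ContDiff ℝ ∞ k) {C C' : ℝ}
    (b0 : ∀ x, |k x| ≤ C) (b1 : ∀ x, |deriv k x| ≤ C') :
    ∫ s, G s 0 * k (G s 0) ∂P = ∫ s, (∑ i, D i (G s) 0 ^ 2) * deriv k (G s 0) ∂P := by
  have W1 := fun i => W.der hτ i
  have W2 := fun i => (W1 i).der hτ i
  have mk : Measurable fun s => k (G s 0) := hk.continuous.measurable.comp W.m0
  have cd : Continuous (deriv k) := hk.continuous_deriv (by simp)
  have mk' : Measurable fun s => deriv k (G s 0) := cd.measurable.comp W.m0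
  have e1 : ∀ i s, D i (fun y => k (G s y) * D i (G s) y) 0 =
      D i (G s) 0 ^ 2 * deriv k (G s 0) + D i (D i (G s)) 0 * k (G s 0) := by
    intro i s
    rw [D_mul (f := fun y => k (G s y)) (hk.comp (W.sf.smooth s)) ((W1 i).sf.smooth s),
      D_comp hk (W.sf.smooth s)]
    ring
  have ip : ∀ i, Integrable (fun s => D i (D i (G s)) 0 * k (G s 0)) P := fun i =>
    ibd (l2_l1 (W2 i).m0 (W2 i).l2) mk fun s => b0 _
  have iq : ∀ i, Integrable (fun s => D i (G s) 0 ^ 2 * deriv k (G s 0)) P := fun i =>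
    ibd (W1 i).l2 mk' fun s => b1 _
  have ir : ∀ i, Integrable (fun s => k (G s 0) * D i (G s) 0) P := fun i => by
    have := ibd (l2_l1 (W1 i).m0 (W1 i).l2) mk fun s => b0 _
    refine this.congr (ae_of_all _ fun s => mul_comm _ _)
  have kk : ∀ i, ∫ s, D i (G s) 0 ^ 2 * deriv k (G s 0) ∂P =
      -∫ s, D i (D i (G s)) 0 * k (G s 0) ∂P := by
    intro i
    have h := div0 hτ ((W.sf.comp hk).mul (W1 i).sf) i (ir i) (by
      simp only [e1]
      exact (iq i).add (ip i))
    simp only [e1] at h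
    rw [integral_add (iq i) (ip i)] at h
    linarith
  simp only [Finset.sum_mul]
  rw [integral_finsetSum _ fun i _ => iq i]
  simp only [kk]
  rw [Finset.sum_neg_distrib, ← integral_finsetSum _ fun i _ => ip i, ← integral_neg]
  congr 1; funext s
  have := W.eq s 0
  unfold Lap at this
  rw [← Finset.sum_mul, this]; ring

lemma dsin (t x : ℝ) : deriv (fun y => Real.sin (t * y)) x = t * Real.cos (t * x) := by
  have h : HasDerivAt (fun y => t * y) t x := by
    simpa using (hasDerivAt_id x).const_mul t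
  rw [h.sin.deriv]; ring

lemma dcos (t x : ℝ) : deriv (fun y => Real.cos (t * y)) x = -t * Real.sin (t * x) := by
  have h : HasDerivAt (fun y => t * y) t x := by
    simpa using (hasDerivAt_id x).const_mul t
  rw [h.cos.deriv]; ring

theorem wave_stein [IsProbabilityMeasure P] (hτ : ∀ x, MeasurePreserving (τ x) P P)
    {G : S → E d → ℝ} (W : Wave P τ G) :
    Stein P (fun s => G s 0) (fun s => ∑ i, D i (G s) 0 ^ 2) where
  mX := W.m0
  mΓ := Finset.measurable_fun_sum _ fun i _ => ((W.der hτ i).m0).pow_const 2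
  X2 := W.l2
  iΓ := integrable_finsetSum _ fun i _ => (W.der hτ i).l2
  Γ0 := fun s => Finset.sum_nonneg fun i _ => sq_nonneg _
  en := by
    rw [integral_finsetSum _ fun i _ => (W.der hτ i).l2]
    exact W.energy hτ
  sin := fun t => by
    have := stein_k hτ W (k := fun y => Real.sin (t * y)) (by fun_prop) (C := 1) (C' := |t|)
      (fun x => Real.abs_sin_le_one _) (fun x => by
        rw [dsin, abs_mul]
        exact mul_le_of_le_one_right (abs_nonneg _) (Real.abs_cos_le_one _))
    rw [this, ← integral_const_mul]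
    congr 1; funext s
    rw [dsin]; ring
  cos := fun t => by
    have := stein_k hτ W (k := fun y => Real.cos (t * y)) (by fun_prop) (C := 1) (C' := |t|)
      (fun x => Real.abs_cos_le_one _) (fun x => by
        rw [dcos, abs_mul, abs_neg]
        exact mul_le_of_le_one_right (abs_nonneg _) (Real.abs_sin_le_one _))
    rw [this, ← integral_const_mul]
    congr 1; funext s
    rw [dcos]; ring

/-- a linear combination of translates -/
def lc (I : Finset (E d)) (a : E d → ℝ) (G : S → E d → ℝ) (s : S) (y : E d) : ℝ :=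
  ∑ x ∈ I, a x * G s (y + x)

lemma D_tr' (f : E d → ℝ) (x : E d) (i : Fin d) (y : E d) :
    D i (fun y => f (y + x)) y = D i f (y + x) := by rw [D_tr]

lemma D_lin {ι : Type*} (t : Finset ι) (c : ι → ℝ) {f : ι → E d → ℝ}
    (hf : ∀ j, ContDiff ℝ ∞ (f j)) (i : Fin d) (y : E d) :
    D i (fun w => ∑ j ∈ t, c j * f j w) y = ∑ j ∈ t, c j * D i (f j) y := by
  rw [D_sum t (fun j => contDiff_const.mul (hf j))]
  refine Finset.sum_congr rfl fun j _ => ?_
  rw [D_mul contDiff_const (hf j)]
  have : D i (fun _ : E d => c j) y = 0 := by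
    unfold D; simp
  rw [this]; ring

lemma tr_sm {G : E d → ℝ} (h : ContDiff ℝ ∞ G) (x : E d) : ContDiff ℝ ∞ fun y => G (y + x) :=
  h.comp (contDiff_id.add contDiff_const)

lemma lc_D {G : S → E d → ℝ} (h : ∀ s, ContDiff ℝ ∞ (G s)) (I : Finset (E d)) (a : E d → ℝ)
    (i : Fin d) (s : S) (y : E d) :
    D i (lc I a G s) y = ∑ x ∈ I, a x * D i (G s) (y + x) := by
  unfold lc
  rw [D_lin I a (f := fun x y => G s (y + x)) (fun x => tr_sm (h s) x)]
  refine Finset.sum_congr rfl fun x _ => ?_
  rw [D_tr']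

lemma lc_wave [IsProbabilityMeasure P] (hτ : ∀ x, MeasurePreserving (τ x) P P)
    {G : S → E d → ℝ} (W : Wave P τ G) (I : Finset (E d)) (a : E d → ℝ) :
    Wave P τ (lc I a G) := by
  have sf : SF τ (lc I a G) := by
    refine ⟨fun y => ?_, fun s => ?_, fun x s y => ?_⟩
    · exact Finset.measurable_fun_sum _ fun x _ => measurable_const.mul (W.sf.meas _)
    · exact ContDiff.sum fun x _ => contDiff_const.mul (tr_sm (W.sf.smooth s) x)
    · unfold lc
      refine Finset.sum_congr rfl fun z _ => ?_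
      rw [W.sf.cov]
      congr 2
      abel
  refine ⟨sf, fun s y => ?_, ?_⟩
  · have e1 : ∀ i, D i (D i (lc I a G s)) y = ∑ x ∈ I, a x * D i (D i (G s)) (y + x) := by
      intro i
      have : D i (lc I a G s) = fun y => ∑ x ∈ I, a x * D i (G s) (y + x) :=
        funext fun y => lc_D W.sf.smooth I a i s y
      rw [this, D_lin I a (f := fun x y => D i (G s) (y + x))
        (fun x => tr_sm (D_sm (W.sf.smooth s) i) x)]
      refine Finset.sum_congr rfl fun x _ => ?_
      rw [D_tr']
    unfold Lap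
    simp only [e1]
    rw [Finset.sum_comm]
    simp only [← Finset.mul_sum]
    have e2 : ∀ x, ∑ i, D i (D i (G s)) (y + x) = -G s (y + x) := fun x => W.eq s (y + x)
    simp only [e2]
    unfold lc
    rw [← Finset.sum_neg_distrib]
    exact Finset.sum_congr rfl fun x _ => by ring
  · have i1 : Integrable (fun s => (I.card : ℝ) * ∑ x ∈ I, (a x * G s (0 + x)) ^ 2) P := by
      refine Integrable.const_mul (integrable_finsetSum _ fun x _ => ?_) _
      have i2 : Integrable (fun s => G s (0 + x) ^ 2) P := by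
        have := st_integrable hτ (W.sf.mul W.sf) (0 + x) (by
          refine W.l2.congr (ae_of_all _ fun s => ?_)
          show G s 0 ^ 2 = G s 0 * G s 0
          ring)
        refine this.congr (ae_of_all _ fun s => ?_)
        show G s (0 + x) * G s (0 + x) = G s (0 + x) ^ 2
        ring
      refine (i2.const_mul (a x ^ 2)).congr (ae_of_all _ fun s => ?_)
      show a x ^ 2 * G s (0 + x) ^ 2 = (a x * G s (0 + x)) ^ 2
      ring
    refine Integrable.mono' i1 ((sf.meas 0).pow_const 2).aestronglyMeasurable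
      (ae_of_all _ fun s => ?_)
    rw [Real.norm_eq_abs, abs_of_nonneg (sq_nonneg _)]
    exact sq_sum_le_card_mul_sum_sq

/-- transfer along a measurable map -/
lemma Stein.comp {T : Type*} [MeasurableSpace T] [IsProbabilityMeasure P] {Φ : S → T}
    (mΦ : Measurable Φ) {X Γ : T → ℝ}
    (h : Stein (P.map Φ) X Γ) : Stein P (fun s => X (Φ s)) (fun s => Γ (Φ s)) := by
  have key : ∀ {f : T → ℝ}, Measurable f → ∫ x, f x ∂(P.map Φ) = ∫ s, f (Φ s) ∂P :=
    fun mf => integral_map mΦ.aemeasurable mf.aestronglyMeasurable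
  have mX := h.mX
  have mΓ := h.mΓ
  refine ⟨h.mX.comp mΦ, h.mΓ.comp mΦ, ?_, ?_, fun s => h.Γ0 _, ?_, fun t => ?_, fun t => ?_⟩
  · exact (integrable_map_measure (mX.pow_const 2).aestronglyMeasurable mΦ.aemeasurable).1 h.X2
  · exact (integrable_map_measure mΓ.aestronglyMeasurable mΦ.aemeasurable).1 h.iΓ
  · rw [← key mΓ, ← key (mX.pow_const 2)]
    exact h.en
  · have := h.sin t
    rw [key (by fun_prop), key (by fun_prop)] at this
    exact this
  · have := h.cos t
    rw [key (by fun_prop), key (by fun_prop)] at this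
    exact this

/-- the theorem for fields whose law is stationary -/
theorem stein_F [IsProbabilityMeasure P] {F : S → E d → ℝ} (mF : ∀ y, Measurable fun s => F s y)
    (sF : ∀ s, ContDiff ℝ ∞ (F s)) (eF : ∀ s y, Lap (F s) y + F s y = 0)
    (st : ∀ x : E d, P.map (fun s y => F s (y + x)) = P.map (fun s y => F s y))
    (l2 : Integrable (fun s => F s 0 ^ 2) P) (I : Finset (E d)) (a : E d → ℝ) :
    Stein P (fun s => ∑ x ∈ I, a x * F s x)
      (fun s => ∑ i, (∑ x ∈ I, a x * D i (F s) x) ^ 2) := by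
  obtain ⟨Φ, hΦ⟩ : ∃ Φ : S → Sp d, Φ = fun s => ⟨F s, sF s, fun y => by
    have := eF s y; linarith⟩ := ⟨_, rfl⟩
  have v1 : ∀ s, (Φ s).1 = F s := fun s => by rw [hΦ]
  have mΦ : Measurable Φ := by
    rw [hΦ]
    exact Measurable.subtype_mk (measurable_pi_iff.2 mF)
  have hQ : IsProbabilityMeasure (P.map Φ) := Measure.isProbabilityMeasure_map mΦ.aemeasurable
  have hτ : ∀ x : E d, MeasurePreserving (sh x) (P.map Φ) (P.map Φ) := by
    intro x
    refine ⟨sh_me x, ?_⟩
    rw [Measure.map_map (sh_me x) mΦ]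
    ext A mA
    obtain ⟨B, mB, rfl⟩ := mA
    have e1 : ((sh x ∘ Φ) ⁻¹' (Subtype.val ⁻¹' B)) = (fun s y => F s (y + x)) ⁻¹' B := by
      ext s
      show (fun y => (Φ s).1 (y + x)) ∈ B ↔ (fun y => F s (y + x)) ∈ B
      rw [v1]
    have e2 : (Φ ⁻¹' (Subtype.val ⁻¹' B)) = (fun s y => F s y) ⁻¹' B := by
      ext s
      show (Φ s).1 ∈ B ↔ (fun y => F s y) ∈ B
      rw [v1]
    have mV : MeasurableSet (Subtype.val ⁻¹' B : Set (Sp d)) := ⟨B, mB, rfl⟩
    rw [Measure.map_apply ((sh_me x).comp mΦ) mV, Measure.map_apply mΦ mV, e1, e2,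
      ← Measure.map_apply (measurable_pi_iff.2 fun y => mF (y + x)) mB,
      ← Measure.map_apply (measurable_pi_iff.2 fun y => mF y) mB, st x]
  have W : Wave (P.map Φ) sh (fun f : Sp d => f.1) := by
    refine ⟨⟨fun y => (measurable_pi_apply y).comp measurable_subtype_coe, fun f => f.2.1,
      fun x f y => rfl⟩, fun f y => f.2.2 y, ?_⟩
    have m0 : Measurable fun f : Sp d => f.1 0 :=
      (measurable_pi_apply 0).comp measurable_subtype_coe
    refine (integrable_map_measure (m0.pow_const 2).aestronglyMeasurable mΦ.aemeasurable).2 ?_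
    refine l2.congr (ae_of_all _ fun s => ?_)
    show F s 0 ^ 2 = (Φ s).1 0 ^ 2
    rw [v1]
  have h := Stein.comp mΦ (wave_stein hτ (lc_wave hτ W I a))
  have e1 : (fun s => lc I a (fun f : Sp d => f.1) (Φ s) 0) = fun s => ∑ x ∈ I, a x * F s x := by
    funext s
    show ∑ x ∈ I, a x * (Φ s).1 (0 + x) = _
    rw [v1]
    simp
  have e2 : (fun s => ∑ i, D i (lc I a (fun f : Sp d => f.1) (Φ s)) 0 ^ 2) =
      fun s => ∑ i, (∑ x ∈ I, a x * D i (F s) x) ^ 2 := by
    funext s
    refine Finset.sum_congr rfl fun i _ => ?_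
    rw [lc_D W.sf.smooth]
    congr 1
    refine Finset.sum_congr rfl fun x _ => ?_
    show a x * D i (Φ s).1 (0 + x) = _
    rw [v1, zero_add]
  rw [e1, e2] at h
  exact h

end

end Pool.Agent.T6.H63.GS
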